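import Mathlib
import Pool.Agent.H957R3.PhiD
import Pool.Agent.Y767.RP.Main
import Pool.Agent.Y767.RP.Sl

set_option autoImplicit false

/-!
# The map `Φ^V` is not injective as soon as there is an abelian subalgebra larger than the rank

Let `g` be a finite-dimensional complex semisimple Lie algebra with Cartan subalgebra `H`, and let
`Φ = (p ⊗ φ) ∘ (Id ⊗ π) ∘ Δ : Λ g → Λ H ⊗ A^*` be the map of the question.

We show that whenever `g` has an abelian subalgebra `a` with `dim a > dim H`, there are a
finite-dimensional irreducible `g`-module `V` and a nonzero `g`-module map `f : V → Λ g` with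
`Φ ∘ f = 0` on all of `V`, so in particular on the zero weight space.  By the theorem of Malcev on
the dimensions of abelian subalgebras this is the case for every semisimple `g` that has a simple
ideal which is not isomorphic to `sl(2)` or `sl(3)`; we give the details for `sl(n)`, `n ≥ 4`.

The reason: let `k = dim a` and `N ⊆ Λ^k g` the set of all `w` whose contractions with the bivectors
`s(h)`, `h ∈ g`, vanish.  This is a `g`-submodule, since `s` is equivariant.  Contraction in the
second leg of `Δ(w)` by the even element `s(h)` is `Δ` of the contraction of `w` by `s(h)`, and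
multiplication by `s(h)` is adjoint to contraction by `s(h)`.  Therefore all components of `Φ(w)`
of positive degree in the second leg vanish for `w ∈ N`; the remaining one is the image of `w` in
`Λ^k H`, which vanishes since `k > dim H`.  Finally the product in `Λ g` of the elements of a basis
of `a` is in `N` and is not zero, as its contraction by `s(h)` only contains brackets of elements
of `a`.
-/

open scoped TensorProduct

namespace Pool.Agent.Results.MP_4ef82d_al.AbelianSubalgebras

open H957.ReederPhi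

attribute [local instance 100] LieRing.ofAssociativeRing

/-- A counterexample to the injectivity of `Φ^V` for the Lie algebra `g` and its subalgebra `H`:
a finite-dimensional irreducible `g`-module `V` and a nonzero `g`-module map `f : V → Λ g` with
`Φ (f v) = 0` for all `v ∈ V`. Here `Φ : Λ g → Λ H ⊗ A^*` is formed with `p = Λ q` for any linear
map `q : g → H` (such as the projection along the root spaces), and with any subspace `A` of
`S(H)` (such as the space of harmonic polynomials). -/
structure Counterexample (g : Type) [LieRing g] [LieAlgebra ℂ g] [FiniteDimensional ℂ g]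
    [LieAlgebra.IsKilling ℂ g] (H : LieSubalgebra ℂ g) where
  /-- the module `V` -/
  V : Type
  [addCommGroup : AddCommGroup V]
  [module : Module ℂ V]
  [lieRingModule : LieRingModule g V]
  [lieModule : LieModule ℂ g V]
  [finiteDimensional : FiniteDimensional ℂ V]
  [irreducible : LieModule.IsIrreducible ℂ g V]
  /-- the map `f : V → Λ g` -/
  f : V →ₗ[ℂ] ExteriorAlgebra ℂ g
  f_ne_zero : f ≠ 0
  /-- `f` is a homomorphism of `g`-modules, where `x ∈ g` acts on `Λ g` by the derivation
  extending `ad x` -/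
  f_lie : ∀ (x : g) (v : V), f ⁅x, v⁆ = act x (f v)
  /-- the algebra homomorphism `τ : S(H) → Λ g` with `τ(x) = s(x)` for `x ∈ H` -/
  τ : SymmetricAlgebra ℂ H →ₐ[ℂ] ExteriorAlgebra ℂ g
  τ_ι : ∀ x : H, τ (SymmetricAlgebra.ι ℂ H x) = sFun (x : g)
  /-- `Φ (f v) = 0`, where `Φ = (Λ q ⊗ φ) ∘ (Id ⊗ π) ∘ Δ` and `φ : Λ g → A^*` is the transpose
  of `τ` restricted to `A` -/
  vanishing : ∀ (q : g →ₗ[ℂ] H) (A : Submodule ℂ (SymmetricAlgebra ℂ H)),
    ∃ φ : ExteriorAlgebra ℂ g →ₗ[ℂ] Module.Dual ℂ A,
      (∀ w a, φ w a = pairing (killingForm ℂ g) w (τ a)) ∧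
      ∀ v : V, TensorProduct.map (ExteriorAlgebra.map q).toLinearMap φ
        (TensorProduct.map LinearMap.id (evenProj g) (coproduct g (f v))) = 0

theorem of_ne_bot (g : Type) [LieRing g] [LieAlgebra ℂ g] [FiniteDimensional ℂ g]
    [LieAlgebra.IsKilling ℂ g] (H : LieSubalgebra ℂ g) {k : ℕ} (hk : Module.finrank ℂ H < k)
    (hne : Pool.Agent.Y767.RP.NN g k ≠ ⊥) : Nonempty (Counterexample g H) := by
  obtain ⟨W, hW⟩ := Pool.Agent.Y767.RP.exists_irr hne
  have hnt : Nontrivial W := LieModule.nontrivial_of_isIrreducible ℂ g W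
  have hfin : FiniteDimensional ℂ H := inferInstanceAs (FiniteDimensional ℂ H.toSubmodule)
  refine ⟨{ V := W
            irreducible := hW
            f := (((Pool.Agent.Y767.RP.NN g k).incl.comp W.incl : W →ₗ⁅ℂ, g⁆ ExteriorAlgebra ℂ g) :
              W →ₗ[ℂ] ExteriorAlgebra ℂ g)
            f_ne_zero := ?_
            f_lie := fun x v => ?_
            τ := tau (H.incl : H →ₗ[ℂ] g)
            τ_ι := fun x => tau_ι (H.incl : H →ₗ[ℂ] g) x
            vanishing := fun q A => ⟨phi (H.incl : H →ₗ[ℂ] g) A, fun w a => rfl, fun v => ?_⟩ }⟩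
  · intro h0
    obtain ⟨w, hw⟩ := exists_ne (0 : W)
    have h1 : ((w : Pool.Agent.Y767.RP.NN g k) : ExteriorAlgebra ℂ g) = 0 :=
      LinearMap.congr_fun h0 w
    exact hw (Subtype.ext (Subtype.ext h1))
  · exact ((Pool.Agent.Y767.RP.NN g k).incl.comp W.incl).map_lie x v
  · exact Pool.Agent.Y767.RP.bigPhi_NN q (H.incl : H →ₗ[ℂ] g) A hk _
      (v : Pool.Agent.Y767.RP.NN g k).2

theorem of_dim (g : Type) [LieRing g] [LieAlgebra ℂ g] [FiniteDimensional ℂ g]
    [LieAlgebra.IsKilling ℂ g] (H : LieSubalgebra ℂ g) (hH : Module.finrank ℂ H ≤ 2)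
    (hg : 9 ≤ Module.finrank ℂ g) : Nonempty (Counterexample g H) := by
  obtain ⟨W, hW⟩ := exists_irreducible g hg
  have hnt : Nontrivial W := LieModule.nontrivial_of_isIrreducible ℂ g W
  have hfin : FiniteDimensional ℂ H := inferInstanceAs (FiniteDimensional ℂ H.toSubmodule)
  refine ⟨{ V := W
            irreducible := hW
            f := (((kerSub g).incl.comp W.incl : W →ₗ⁅ℂ, g⁆ ExteriorAlgebra ℂ g) :
              W →ₗ[ℂ] ExteriorAlgebra ℂ g)
            f_ne_zero := ?_
            f_lie := fun x v => ?_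
            τ := tau (H.incl : H →ₗ[ℂ] g)
            τ_ι := fun x => tau_ι (H.incl : H →ₗ[ℂ] g) x
            vanishing := fun q A => ⟨phi (H.incl : H →ₗ[ℂ] g) A, fun w a => rfl, fun v => ?_⟩ }⟩
  · intro h0
    obtain ⟨w, hw⟩ := exists_ne (0 : W)
    have h1 : ((w : kerSub g) : ExteriorAlgebra ℂ g) = 0 := LinearMap.congr_fun h0 w
    exact hw (Subtype.ext (Subtype.ext h1))
  · exact ((kerSub g).incl.comp W.incl).map_lie x v
  · exact bigPhi_kerSub q (H.incl : H →ₗ[ℂ] g) A hH _ (v : kerSub g).2

/-- The map `Φ^V` is not always injective for any semisimple `g` with a Cartan subalgebra `H` such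
that `g` has an abelian subalgebra of dimension larger than `dim H` (or `dim H ≤ 2` and
`dim g ≥ 9`); this applies to `sl(n)` for all `n ≥ 4`, with its Cartan subalgebra of diagonal
matrices. -/
theorem result :
    (∀ (g : Type) [LieRing g] [LieAlgebra ℂ g] [FiniteDimensional ℂ g]
      [LieAlgebra.IsKilling ℂ g] (H : LieSubalgebra ℂ g) [H.IsCartanSubalgebra],
      ((∃ a : LieSubalgebra ℂ g, IsLieAbelian a ∧ Module.finrank ℂ H < Module.finrank ℂ a) ∨
        (Module.finrank ℂ H ≤ 2 ∧ 9 ≤ Module.finrank ℂ g)) → Nonempty (Counterexample g H)) ∧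
    ∀ n : ℕ, 4 ≤ n →
      ∃ (_ : LieAlgebra.IsKilling ℂ (LieAlgebra.SpecialLinear.sl (Fin n) ℂ))
        (H : LieSubalgebra ℂ (LieAlgebra.SpecialLinear.sl (Fin n) ℂ)),
        H.IsCartanSubalgebra ∧
        (∀ x : LieAlgebra.SpecialLinear.sl (Fin n) ℂ,
          x ∈ H ↔ (x : Matrix (Fin n) (Fin n) ℂ).IsDiag) ∧
        Nonempty (Counterexample (LieAlgebra.SpecialLinear.sl (Fin n) ℂ) H) := by
  constructor
  · intro g _ _ _ _ H _ h
    rcases h with ⟨a, ha, hlt⟩ | ⟨hH, hg⟩
    · exact of_ne_bot g H hlt (Pool.Agent.Y767.RP.NN_ne_bot_of_abelian a)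
    · exact of_dim g H hH hg
  · intro n hn
    have hK := Pool.Agent.Y767.RP.Sl.isKilling n (by omega)
    refine ⟨hK, Pool.Agent.Y767.RP.Sl.diag n, inferInstance, fun x => ?_, ?_⟩
    · constructor
      · intro hx i j hij
        exact hx i j hij
      · intro hx i j hij
        exact hx hij
    · obtain ⟨k, v, hk, hv, hc⟩ := Pool.Agent.Y767.RP.Sl.commuting hn
      have h1 := Pool.Agent.Y767.RP.Sl.finrank_diag (n := n) (by omega)
      exact of_ne_bot _ _ (lt_of_lt_of_le h1 hk) (Pool.Agent.Y767.RP.NN_ne_bot v hv hc)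

end Pool.Agent.Results.MP_4ef82d_al.AbelianSubalgebras
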